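import Pool.Agent.Helper73.KT.Ops

/-!
K'', block B2: the Lie operators.
-/

set_option autoImplicit false

open Matrix H77MT Pool.Agent.Helper79.KN Pool.Agent.Helper33.KN

namespace Pool.Agent.Helper43.KT

variable {X n K ι : Type} [Fintype n] [DecidableEq n] [DecidableEq X] [Field K] [Fintype ι] [DecidableEq ι]

/-- a matrix acting on one factor -/
def op (a : ι) (B : Matrix n n K) : ((ι → n) → K) →ₗ[K] ((ι → n) → K) where
  toFun M := fun s => ∑ v, B (s a) v * M (Function.update s a v)
  map_add' M N := by
    funext s
    simp only [Pi.add_apply, mul_add, Finset.sum_add_distrib]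
  map_smul' z M := by
    funext s
    simp only [Pi.smul_apply, smul_eq_mul, RingHom.id_apply, Finset.mul_sum]
    exact Finset.sum_congr rfl fun t _ => by ring

omit [DecidableEq n] [Fintype ι] in
theorem op_apply (a : ι) (B : Matrix n n K) (M : (ι → n) → K) (s : ι → n) :
    op a B M s = ∑ v, B (s a) v * M (Function.update s a v) := rfl

omit [DecidableEq n] [Fintype ι] in
theorem op_mul (a : ι) (B C : Matrix n n K) (M : (ι → n) → K) :
    op a B (op a C M) = op a (B * C) M := by
  funext s
  simp only [op_apply, Function.update_self, Function.update_idem, Matrix.mul_apply,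
    Finset.sum_mul, Finset.mul_sum]
  rw [Finset.sum_comm]
  exact Finset.sum_congr rfl fun v _ => Finset.sum_congr rfl fun w _ => by ring

omit [DecidableEq n] [Fintype ι] in
theorem op_comm {a b : ι} (hab : a ≠ b) (B C : Matrix n n K) (M : (ι → n) → K) :
    op a B (op b C M) = op b C (op a B M) := by
  funext s
  simp only [op_apply, Function.update_of_ne hab, Function.update_of_ne hab.symm, Finset.mul_sum]
  rw [Finset.sum_comm]
  refine Finset.sum_congr rfl fun v _ => Finset.sum_congr rfl fun w _ => ?_
  rw [Function.update_comm hab]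
  ring

omit [DecidableEq n] [Fintype ι] in
theorem op_sub (a : ι) (B C : Matrix n n K) (M : (ι → n) → K) :
    op a (B - C) M = op a B M - op a C M := by
  funext s
  simp only [op_apply, Pi.sub_apply, Matrix.sub_apply, sub_mul, Finset.sum_sub_distrib]

/-- the matrix of `lie` on the factor `a` -/
def lmat (i : ι → X × Bool) (x : X) (c d : n) (a : ι) : Matrix n n K :=
  if (i a).1 = x then (if (i a).2 then single c d 1 else -single d c 1) else 0

omit [Fintype ι] [DecidableEq ι] in
theorem lmat_comm (i : ι → X × Bool) (x : X) (c d : n) (a : ι) :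
    (lmat i x c d a * lmat i x d c a - lmat i x d c a * lmat i x c d a : Matrix n n K) =
      lmat i x c c a - lmat i x d d a := by
  unfold lmat
  split_ifs with h1 h2
  · rw [single_mul_single_same, single_mul_single_same, one_mul]
  · rw [neg_mul_neg, neg_mul_neg, single_mul_single_same, single_mul_single_same, one_mul]
    abel
  · simp

theorem lie_eq (i : ι → X × Bool) (x : X) (c d : n) (M : (ι → n) → K) :
    Pool.Agent.Helper73.KT.lie i x c d M = ∑ a, op a (lmat i x c d a) M := by
  funext s
  rw [Finset.sum_apply]
  show ∑ a, _ = _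
  refine Finset.sum_congr rfl fun a _ => ?_
  rw [op_apply]
  unfold lmat
  split_ifs with h1 h2 h3 h3
  · rw [Finset.sum_eq_single d]
    · rw [h3]; simp
    · intro v _ hv
      rw [single_apply, if_neg (fun h => hv h.2.symm), zero_mul]
    · simp
  · rw [Finset.sum_eq_zero]
    intro v _
    rw [single_apply, if_neg (fun h => h3 h.1.symm), zero_mul]
  · rw [Finset.sum_eq_single c]
    · rw [h3]; simp
    · intro v _ hv
      rw [Matrix.neg_apply, single_apply, if_neg (fun h => hv h.2.symm), neg_zero, zero_mul]
    · simp
  · rw [Finset.sum_eq_zero]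
    intro v _
    rw [Matrix.neg_apply, single_apply, if_neg (fun h => h3 h.1.symm), neg_zero, zero_mul]
  · rw [Finset.sum_eq_zero]
    intro v _
    simp

/-- the part of the tensor product of the `1 + z B` -/
def part (B : ι → Matrix n n K) (M : (ι → n) → K) (S : Finset ι) : (ι → n) → K := fun s =>
  ∑ t : ι → n, (∏ a ∈ S, B a (s a) (t a)) * (∏ a ∈ Finset.univ \ S, (1 : Matrix n n K) (s a) (t a)) *
    M t

theorem ten_add (B : ι → Matrix n n K) (z : K) (M : (ι → n) → K) :
    Pool.Agent.Helper73.KT.ten (fun a => 1 + z • B a) M =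
      ∑ S : Finset ι, z ^ S.card • part B M S := by
  funext s
  rw [Finset.sum_apply]
  unfold Pool.Agent.Helper73.KT.ten
  have h1 : ∀ t : ι → n, (∏ a, (1 + z • B a : Matrix n n K) (s a) (t a)) * M t =
      ∑ S : Finset ι, z ^ S.card * ((∏ a ∈ S, B a (s a) (t a)) *
        (∏ a ∈ Finset.univ \ S, (1 : Matrix n n K) (s a) (t a)) * M t) := by
    intro t
    have h2 : ∏ a, (1 + z • B a : Matrix n n K) (s a) (t a) =
        ∏ a, (z * B a (s a) (t a) + (1 : Matrix n n K) (s a) (t a)) := by
      refine Finset.prod_congr rfl fun a _ => ?_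
      rw [Matrix.add_apply, Matrix.smul_apply, smul_eq_mul, add_comm]
    rw [h2, Finset.prod_add, Finset.powerset_univ, Finset.sum_mul]
    refine Finset.sum_congr rfl fun S _ => ?_
    rw [Finset.prod_mul_distrib, Finset.prod_const]
    ring
  simp_rw [h1]
  rw [Finset.sum_comm]
  refine Finset.sum_congr rfl fun S _ => ?_
  rw [Pi.smul_apply, smul_eq_mul]
  unfold part
  rw [Finset.mul_sum]

theorem part_single (B : ι → Matrix n n K) (M : (ι → n) → K) (a : ι) :
    part B M {a} = op a (B a) M := by
  funext s
  rw [op_apply]
  unfold part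
  have h1 : ∑ t : ι → n, (∏ b ∈ {a}, B b (s b) (t b)) *
      (∏ b ∈ Finset.univ \ {a}, (1 : Matrix n n K) (s b) (t b)) * M t =
      ∑ t ∈ Finset.univ.image (fun v => Function.update s a v), (∏ b ∈ {a}, B b (s b) (t b)) *
      (∏ b ∈ Finset.univ \ {a}, (1 : Matrix n n K) (s b) (t b)) * M t := by
    symm
    refine Finset.sum_subset (Finset.subset_univ _) fun t _ ht => ?_
    have h2 : ∃ b, b ≠ a ∧ s b ≠ t b := by
      by_contra h
      push Not at h
      apply ht
      rw [Finset.mem_image]
      refine ⟨t a, Finset.mem_univ _, ?_⟩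
      funext b
      by_cases hb : b = a
      · subst hb; simp
      · rw [Function.update_of_ne hb, h b hb]
    obtain ⟨b, hb, hb'⟩ := h2
    have h3 : ∏ b ∈ Finset.univ \ {a}, (1 : Matrix n n K) (s b) (t b) = 0 :=
      Finset.prod_eq_zero (i := b) (by simp [hb]) (Matrix.one_apply_ne hb')
    rw [h3, mul_zero, zero_mul]
  rw [h1, Finset.sum_image fun v _ w _ h => Function.update_injective s a h]
  refine Finset.sum_congr rfl fun v _ => ?_
  rw [Finset.prod_singleton, Function.update_self, Finset.prod_eq_one, mul_one]
  intro b hb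
  have hb' : b ≠ a := by simpa using hb
  rw [Function.update_of_ne hb', Matrix.one_apply_eq]

omit [DecidableEq ι] in
theorem coeff_mem {V : Type*} [AddCommGroup V] [Module K V] [Infinite K] (R : Submodule K V)
    (N : Finset ι → V) (h : ∀ z : K, ∑ S : Finset ι, z ^ S.card • N S ∈ R) :
    ∑ S ∈ Finset.univ.filter (fun S : Finset ι => S.card = 1), N S ∈ R := by
  by_contra hne
  obtain ⟨φ, h1, h2⟩ := Submodule.exists_dual_map_eq_bot_of_notMem hne inferInstance
  have h3 : ∀ v ∈ R, φ v = 0 := fun v hv => by
    have : φ v ∈ R.map φ := Submodule.mem_map_of_mem hv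
    rwa [h2, Submodule.mem_bot] at this
  let P : Polynomial K := ∑ S : Finset ι, Polynomial.C (φ (N S)) * Polynomial.X ^ S.card
  have hP : P = 0 := by
    refine Polynomial.funext fun z => ?_
    rw [Polynomial.eval_zero]
    have h4 := h3 _ (h z)
    rw [map_sum] at h4
    rw [← h4]
    simp only [P, Polynomial.eval_finsetSum, Polynomial.eval_mul, Polynomial.eval_C,
      Polynomial.eval_pow, Polynomial.eval_X, map_smul, smul_eq_mul]
    exact Finset.sum_congr rfl fun S _ => mul_comm _ _
  have h5 : P.coeff 1 = φ (∑ S ∈ Finset.univ.filter (fun S : Finset ι => S.card = 1), N S) := by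
    simp only [P, Polynomial.finsetSum_coeff, Polynomial.coeff_C_mul, Polynomial.coeff_X_pow]
    rw [map_sum, Finset.sum_filter]
    refine Finset.sum_congr rfl fun S _ => ?_
    by_cases hS : S.card = 1
    · rw [if_pos hS, if_pos hS.symm, mul_one]
    · rw [if_neg hS, if_neg (fun h => hS h.symm), mul_zero]
  rw [hP, Polynomial.coeff_zero] at h5
  exact h1 h5.symm

theorem pact_transvection {c d : n} (h : c ≠ d) (z : K) (b : Bool) :
    pact (transvection c d z) b = 1 + z • (if b then single c d 1 else -single d c 1) := by
  unfold pact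
  cases b
  · simp only [Bool.false_eq_true, if_false]
    have h1 : (transvection c d z).adjugate = transvection c d (-z) := by
      have h2 := adjugate_mul (transvection c d z)
      rw [det_transvection_of_ne c d h z, one_smul] at h2
      have h3 : transvection c d z * transvection c d (-z) = 1 := by
        rw [transvection_mul_transvection_same c d h, add_neg_cancel, transvection_zero]
      calc (transvection c d z).adjugate
          = (transvection c d z).adjugate * (transvection c d z * transvection c d (-z)) := by
            rw [h3, mul_one]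
        _ = transvection c d (-z) := by rw [← mul_assoc, h2, one_mul]
    rw [h1]
    unfold transvection
    rw [transpose_add, transpose_one, transpose_single]
    congr 1
    ext p q
    simp only [Matrix.smul_apply, Matrix.neg_apply, single_apply, smul_eq_mul]
    split_ifs <;> ring
  · simp only [if_true]
    unfold transvection
    congr 1
    ext p q
    simp only [Matrix.smul_apply, single_apply, smul_eq_mul]
    split_ifs <;> ring

end Pool.Agent.Helper43.KT

namespace Pool.Agent.Helper73.KT

open Pool.Agent.Helper43.KT

variable {X n K ι : Type} [Fintype n] [DecidableEq n] [DecidableEq X] [Field K] [CharZero K] [Fintype ι] [DecidableEq ι]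

theorem lie_stab {i : ι → X × Bool} {R : Submodule K ((ι → n) → K)} (hR : Stab i R) (x : X) {c d : n} (h : c ≠ d) :
    ∀ M ∈ R, lie i x c d M ∈ R := by
  intro M hM
  have hinf : Infinite K := Infinite.of_injective ((↑) : ℕ → K) Nat.cast_injective
  have h1 : ∀ z : K, ∑ S : Finset ι, z ^ S.card • part (lmat i x c d) M S ∈ R := by
    intro z
    have h2 := hR (fun x' => if x' = x then transvection c d z else 1) (by
      intro x'
      split_ifs
      · exact det_transvection_of_ne c d h z
      · exact det_one) M hM
    rw [← ten_add]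
    convert h2 using 2
    funext a
    unfold lmat
    split_ifs with h3 h4
    · rw [pact_transvection h, if_pos h4]
    · rw [pact_transvection h, if_neg h4]
    · rw [pact_one, smul_zero, add_zero]
  have h2 := coeff_mem R _ h1
  rw [lie_eq]
  convert h2 using 1
  have h3 : Finset.univ.filter (fun S : Finset ι => S.card = 1) =
      Finset.univ.map ⟨fun a : ι => ({a} : Finset ι), Finset.singleton_injective⟩ := by
    ext S
    rw [Finset.mem_filter, Finset.mem_map, Finset.card_eq_one]
    constructor
    · rintro ⟨-, a, rfl⟩
      exact ⟨a, Finset.mem_univ _, rfl⟩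
    · rintro ⟨a, -, rfl⟩
      exact ⟨Finset.mem_univ _, a, rfl⟩
  rw [h3, Finset.sum_map]
  refine Finset.sum_congr rfl fun a _ => ?_
  exact (part_single _ _ _).symm

omit [CharZero K] in
theorem lie_comm (i : ι → X × Bool) (x : X) (c d : n) (M : (ι → n) → K) :
    lie i x c d (lie i x d c M) - lie i x d c (lie i x c d M) = lie i x c c M - lie i x d d M := by
  rw [lie_eq i x c d, lie_eq i x d c M, lie_eq i x d c, lie_eq i x c d M, lie_eq i x c c M,
    lie_eq i x d d M]
  simp_rw [map_sum]
  rw [Finset.sum_comm (f := fun a b => op a (lmat i x d c a) (op b (lmat i x c d b) M)),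
    ← Finset.sum_sub_distrib, ← Finset.sum_sub_distrib]
  refine Finset.sum_congr rfl fun a _ => ?_
  rw [← Finset.sum_sub_distrib, Finset.sum_eq_single a]
  · rw [op_mul, op_mul, ← op_sub, ← op_sub, lmat_comm]
  · intro b _ hb
    rw [op_comm (Ne.symm hb), sub_self]
  · simp

/-- all of them, the diagonal ones by `lie_comm` and `∑ c, lie i x c c = (number) • 1` -/
theorem lie_stab_all [Nonempty n] {i : ι → X × Bool} {R : Submodule K ((ι → n) → K)} (hR : Stab i R) (x : X) (c d : n) :
    ∀ M ∈ R, lie i x c d M ∈ R := by
  intro M hM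
  by_cases hcd : c = d
  · subst hcd
    have h1 : ∀ d, lie i x c c M - lie i x d d M ∈ R := by
      intro d
      by_cases hd : c = d
      · subst hd
        rw [sub_self]
        exact R.zero_mem
      · rw [← lie_comm i x c d M]
        exact R.sub_mem (lie_stab hR x hd _ (lie_stab hR x (Ne.symm hd) _ hM))
          (lie_stab hR x (Ne.symm hd) _ (lie_stab hR x hd _ hM))
    have h2 : ∑ d, lie i x d d M =
        (∑ a, if (i a).1 = x then (if (i a).2 then (1 : K) else -1) else 0) • M := by
      funext s
      rw [Finset.sum_apply, Pi.smul_apply, smul_eq_mul, Finset.sum_mul]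
      show ∑ d, ∑ a, _ = _
      rw [Finset.sum_comm]
      refine Finset.sum_congr rfl fun a _ => ?_
      split_ifs
      · rw [Finset.sum_eq_single (s a)]
        · simp
        · intro d _ hd
          rw [if_neg (Ne.symm hd)]
        · simp
      · rw [Finset.sum_eq_single (s a)]
        · simp
        · intro d _ hd
          rw [if_neg (Ne.symm hd)]
        · simp
      · simp
    have h3 : (Fintype.card n : K) • lie i x c c M =
        ∑ d, (lie i x c c M - lie i x d d M) + ∑ d, lie i x d d M := by
      rw [Finset.sum_sub_distrib, sub_add_cancel, Finset.sum_const, Finset.card_univ,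
        ← Nat.cast_smul_eq_nsmul K]
    have h4 : (Fintype.card n : K) • lie i x c c M ∈ R := by
      rw [h3, h2]
      exact R.add_mem (R.sum_mem fun d _ => h1 d) (R.smul_mem _ hM)
    have h5 : (Fintype.card n : K) ≠ 0 := Nat.cast_ne_zero.2 Fintype.card_ne_zero
    have h6 := R.smul_mem ((Fintype.card n : K)⁻¹) h4
    rwa [smul_smul, inv_mul_cancel₀ h5, one_smul] at h6
  · exact lie_stab hR x hcd M hM

end Pool.Agent.Helper73.KT
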